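import Pool.Agent.Helper68.ES.St4

/-! Project ES (MP_cb927e_an), module JCL: the directions which are used form a class. -/

set_option autoImplicit false

open MeasureTheory Set Filter Topology
open scoped ENNReal RealInnerProductSpace

namespace Pool.Agent.Helper80.ES

open Pool.Agent.Helper68.ES
open Pool.Agent.Helper68.LM (Pl BB Bd Av HL ft fm DQ)
open Pool.Agent.Helper20.RG
open Pool.Agent.Helper20.RL (RQ Rich BM Fml Hit)
open Pool.Agent.Helper68.EP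

theorem mem_Jf (p : ℝ) (Δ : Dat) (al : ℝ) (β : ℤ) (u q i j : ℕ) :
    j ∈ Jf p Δ al β u q i ↔ j ∈ Jc p Δ al β u q i := by
  classical
  unfold Jf
  rw [Finset.mem_filter, Finset.mem_range]
  exact ⟨fun h => h.2, fun h => ⟨h.1, h⟩⟩

theorem le_rpow_inv {x y p : ℝ} (hp : 0 < p) (hx : 0 ≤ x) (h : x ^ p ≤ y) : x ≤ y ^ (1 / p) := by
  have h1 : x = (x ^ p) ^ (1 / p) := by
    rw [← Real.rpow_mul hx, mul_one_div_cancel hp.ne', Real.rpow_one]
  rw [h1]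
  exact Real.rpow_le_rpow (Real.rpow_nonneg hx p) h (by positivity)

theorem ncard_le (P : Par) (Δ : Dat) (hS : Sy P Δ) (u : ℕ) (hu : 1 ≤ u) (J : Finset ℕ)
    (hJ : ∀ j ∈ J, j < 2 ^ u) (θ : ℝ) (i : ℕ) :
    ({j' : ℕ | j' ∈ J ∧ |Δ.sl u j' - θ| ≤ (2 : ℝ) ^ (-(i : ℤ))}.ncard : ℝ) ≤
      1 + (2 : ℝ) ^ u * Δ.ell θ i := by
  refine le_trans ?_ (hS.sep u θ i hu)
  have hfin : {j : ℕ | j < 2 ^ u ∧ |Δ.sl u j - θ| ≤ (2 : ℝ) ^ (-(i : ℤ))}.Finite :=
    (Set.finite_lt_nat (2 ^ u)).subset fun j hj => hj.1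
  have hsub : {j' : ℕ | j' ∈ J ∧ |Δ.sl u j' - θ| ≤ (2 : ℝ) ^ (-(i : ℤ))} ⊆
      {j : ℕ | j < 2 ^ u ∧ |Δ.sl u j - θ| ≤ (2 : ℝ) ^ (-(i : ℤ))} :=
    fun j hj => ⟨hJ j hj.1, hj.2⟩
  exact_mod_cast Set.ncard_le_ncard hsub hfin

theorem hJCL : Pool.Agent.Helper68.ES.StJCL := by
  intro P Δ al β u q i hS hu hal
  have hp : 0 < P.p := by linarith [P.hs, P.hsp]
  have hlt : ∀ j ∈ Jf P.p Δ al β u q i, j < 2 ^ u := fun j hj =>
    ((mem_Jf P.p Δ al β u q i j).1 hj).1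
  refine ⟨fun j => mem_Jf P.p Δ al β u q i j, ?_, ?_, ?_, ?_⟩
  · have h1 : (Jf P.p Δ al β u q i).card ≤ 2 ^ u := by
      have h2 : Jf P.p Δ al β u q i ⊆ Finset.range (2 ^ u) := fun j hj =>
        Finset.mem_range.2 (hlt j hj)
      calc (Jf P.p Δ al β u q i).card ≤ (Finset.range (2 ^ u)).card := Finset.card_le_card h2
        _ = 2 ^ u := Finset.card_range _
    exact_mod_cast h1
  · exact fun j hj => hS.slope u j hu (hlt j hj)
  · intro j hj κ hκ hκq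
    have hj' := (mem_Jf P.p Δ al β u q i j).1 hj
    have h1 := ncard_le P Δ hS u hu (Jf P.p Δ al β u q i) hlt (Δ.sl u j) (2 ^ (q - κ))
    have h2 := hj'.2.2.2 κ hκ hκq
    have h3 : Δ.ell (Δ.sl u j) (2 ^ (q - κ)) ^ P.p ≤ al * (2 : ℝ) ^ (2 * (κ : ℤ) - q) := by
      have h4 : (0 : ℝ) < (2 : ℝ) ^ ((q : ℤ) - 2 * κ) := by positivity
      have h5 : (2 : ℝ) ^ (2 * (κ : ℤ) - q) = ((2 : ℝ) ^ ((q : ℤ) - 2 * κ))⁻¹ := by
        rw [← zpow_neg]
        congr 1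
        ring
      rw [h5, ← div_eq_mul_inv, le_div_iff₀ h4, mul_comm]
      exact h2
    have h6 := le_rpow_inv hp (hS.unit (Δ.sl u j) (2 ^ (q - κ))).1 h3
    have h7 : (0 : ℝ) ≤ (2 : ℝ) ^ u := by positivity
    have h8 := mul_le_mul_of_nonneg_left h6 h7
    linarith
  · intro j hj n hn
    have h1 := ncard_le P Δ hS u hu (Jf P.p Δ al β u q i) hlt (Δ.sl u j) n
    have hanti : Antitone (Δ.ell (Δ.sl u j)) := antitone_nat_of_succ_le (hS.mono (Δ.sl u j))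
    have hn0 : (0 : ℝ) < n := by exact_mod_cast hn
    have h2 : (n : ℝ) * Δ.ell (Δ.sl u j) n ^ P.p ≤ P.A := by
      refine le_trans ?_ (hS.sum (Δ.sl u j) n)
      calc (n : ℝ) * Δ.ell (Δ.sl u j) n ^ P.p
          = ∑ _i ∈ Finset.range n, Δ.ell (Δ.sl u j) n ^ P.p := by
            rw [Finset.sum_const, Finset.card_range, nsmul_eq_mul]
        _ ≤ ∑ i ∈ Finset.range n, Δ.ell (Δ.sl u j) (i + 1) ^ P.p := by
            refine Finset.sum_le_sum fun i hi => ?_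
            have := Finset.mem_range.1 hi
            exact Real.rpow_le_rpow (hS.unit _ _).1 (hanti (by omega)) hp.le
    have h3 : Δ.ell (Δ.sl u j) n ^ P.p ≤ P.A / n := by
      rw [le_div_iff₀ hn0, mul_comm]
      exact h2
    have h6 := le_rpow_inv hp (hS.unit (Δ.sl u j) n).1 h3
    have h7 : (0 : ℝ) ≤ (2 : ℝ) ^ u := by positivity
    have h8 := mul_le_mul_of_nonneg_left h6 h7
    linarith

end Pool.Agent.Helper80.ES
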