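import Pool.Agent.Helper85.ES.StI1
import Pool.Agent.Helper27.EP.M_CNC

/-! Project ES (MP_cb927e_an), part I, module ONE: numbers of the middle range. -/

set_option autoImplicit false

open MeasureTheory Set Filter Topology
open scoped ENNReal RealInnerProductSpace

namespace Pool.Agent.Helper80.ES

open Pool.Agent.Helper85.ES Pool.Agent.Helper20.RG Pool.Agent.Helper20.RL
open Pool.Agent.Helper61.EP (Nn D8)
open Pool.Agent.Helper65.RL
open Pool.Agent.Helper27.EP (nn_pos nn_inv nn_eta)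

theorem sm_inv {p s e : ℝ} (h : Sm p s e) :
    13 / 10 < p ∧ p < 131 / 100 ∧ 1 / p < 77 / 100 ∧ 3 / 4 < 1 / p ∧ 3 * (1 / p) = p + 1 := by
  obtain ⟨h1, h2, h3, h4, h5, h6, h7⟩ := h
  have hp : 0 < p := by linarith
  have a1 : 13 / 10 < p := by nlinarith
  have a2 : p < 131 / 100 := by nlinarith
  refine ⟨a1, a2, ?_, ?_, ?_⟩
  · rw [div_lt_iff₀ hp]; linarith
  · rw [lt_div_iff₀ hp]; linarith
  · field_simp
    nlinarith

theorem ns_mid {u b : ℕ} {A p s e : ℝ} (hu : 1 ≤ u) (hA : 0 ≤ A) (h : Sm p s e)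
    (hb : (p - 1 - e / 100) * u < b) : ns u b A p ≤ (1 + A) * X u ((1 + e / 100) / p) := by
  have hp : 0 < p := by linarith [h.1]
  refine (ns_le (u := u) (b := b) (A := A) (σ := p) hu hA hp).trans ?_
  have hu' : (0 : ℝ) < u := by exact_mod_cast hu
  have h1 : p - 1 - e / 100 < (b : ℝ) / u := by rw [lt_div_iff₀ hu']; exact hb
  have h2 : 1 - (b : ℝ) / u / p ≤ (1 + e / 100) / p := by
    have h3 : (p - 1 - e / 100) / p ≤ (b : ℝ) / u / p := by gcongr
    have h4 : (p - 1 - e / 100) / p = 1 - (1 + e / 100) / p := by field_simp; ring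
    linarith
  have h5 : 0 ≤ (1 + e / 100) / p := by
    have := h.2.2.2.1
    positivity
  exact mul_le_mul_of_nonneg_left (X_mono u (max_le h5 h2)) (by linarith)

theorem hONE : Pool.Agent.Helper85.ES.StONE := by
  intro A p s e κ hA hS hκ
  obtain ⟨a1, a2, a3, a4, a5⟩ := sm_inv hS
  have hS' := hS
  obtain ⟨h1, h2, h3, h4, h5, h6, h7⟩ := hS
  have hp : 0 < p := by linarith
  set P₀ : ℝ := 280 * 10 ^ 6 * κ * (1 + A) * 2201 with hP₀
  have hP₀0 : 0 ≤ P₀ := by positivity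
  obtain ⟨C, ε, hC, hε, h⟩ := fin_step (q := p) (e := p - e / 5) (P₀ := P₀) 6 (by linarith) hP₀0
  refine ⟨C, ε, hC, hε, ?_⟩
  intro δ u b η m₁ hδ hδ0 hu hN hb1 hb2 hη
  refine h u _ ?_
  have hu' : (1 : ℝ) ≤ u := by exact_mod_cast hu
  have hm := nn_pos hN
  have h0 := hN.1
  have hi : 1 / (m₁ * η) ≤ X u (e / 100) := (nn_inv hN).trans (X_mono u hδ0)
  have hns := ns_mid hu hA hS' hb1
  have hn1 : 1 ≤ ns u b A p := one_le_ns hA
  have h2b : (2 : ℝ) ^ b ≤ X u (p - 1 + e / 100) := by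
    rw [two_pow_b hu b]
    apply X_mono
    rw [div_le_iff₀ (by linarith)]
    exact hb2
  have hη1 : 1 / η ≤ 100 * X u (1 / p - e / 4) := by
    rw [X_def_neg, X_neg] at hη
    have hX := X_pos u (1 / p - e / 4)
    rw [div_le_iff₀ h0]
    have h8 : (X u (1 / p - e / 4))⁻¹ * X u (1 / p - e / 4) ≤ 100 * η * X u (1 / p - e / 4) :=
      mul_le_mul_of_nonneg_right hη hX.le
    rw [inv_mul_cancel₀ hX.ne'] at h8
    linarith
  have hM : M1 κ u b A p (D8 s u) (η / 2) ≤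
      κ * (ns u b A p + 16 * X u (1 - s) * (1 / η) +
        6 * (u : ℝ) * Real.sqrt (ns u b A p) * X u ((1 - s) / 2) * (1 / η)) :=
    M1_le (q := s) (by linarith) hA h0
  have hD8 : 0 ≤ D8 s u := by unfold D8; positivity
  have hM0 : 0 ≤ M1 κ u b A p (D8 s u) (η / 2) := M1_nonneg (by linarith) hA hD8 (by linarith)
  have hsq : Real.sqrt (ns u b A p) ≤ (1 + A) * X u ((1 + e / 100) / p / 2) := by
    have e1 : (1 + A) * X u ((1 + e / 100) / p) ≤ ((1 + A) * X u ((1 + e / 100) / p / 2)) ^ 2 := by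
      have e2 : X u ((1 + e / 100) / p) = X u ((1 + e / 100) / p / 2) * X u ((1 + e / 100) / p / 2) := by
        rw [← X_add]; congr 1; ring
      have e3 := X_pos u ((1 + e / 100) / p / 2)
      rw [e2]
      have e4 : 1 + A ≤ (1 + A) ^ 2 := by nlinarith
      calc (1 + A) * (X u ((1 + e / 100) / p / 2) * X u ((1 + e / 100) / p / 2))
          ≤ (1 + A) ^ 2 * (X u ((1 + e / 100) / p / 2) * X u ((1 + e / 100) / p / 2)) := by gcongr
        _ = _ := by ring
    calc Real.sqrt (ns u b A p) ≤ Real.sqrt (((1 + A) * X u ((1 + e / 100) / p / 2)) ^ 2) :=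
          Real.sqrt_le_sqrt (hns.trans e1)
      _ = (1 + A) * X u ((1 + e / 100) / p / 2) := by
          rw [Real.sqrt_sq]
          have := X_pos u ((1 + e / 100) / p / 2)
          positivity
  set Y := X u (e / 100) * X u (p - 1 + e / 100) with hY
  have hY0 : 0 < Y := mul_pos (X_pos u _) (X_pos u _)
  have hpe : (1 + e / 100) / p ≤ 77 / 100 + e / 100 := by
    have : (1 + e / 100) / p = (1 + e / 100) * (1 / p) := by ring
    rw [this]
    nlinarith
  set Z := X u (p - e / 5) with hZ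
  have hZ0 : 0 < Z := X_pos u _
  have t1 : Y * X u ((1 + e / 100) / p) ≤ Z := by
    rw [hY, ← X_add, ← X_add]
    apply X_mono
    linarith
  have t2 : Y * (X u (1 - s) * X u (1 / p - e / 4)) ≤ Z := by
    rw [hY, ← X_add, ← X_add, ← X_add]
    apply X_mono
    linarith
  have t3 : Y * (X u ((1 + e / 100) / p / 2) * X u ((1 - s) / 2) * X u (1 / p - e / 4)) ≤ Z := by
    rw [hY, ← X_add, ← X_add, ← X_add, ← X_add]
    apply X_mono
    have e5 : (1 + e / 100) / p / 2 = 1 / p / 2 + e / 200 * (1 / p) := by ring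
    rw [e5]
    nlinarith
  have hXa := X_pos u ((1 + e / 100) / p)
  have hXb := X_pos u (1 - s)
  have hXc := X_pos u (1 / p - e / 4)
  have hXd := X_pos u ((1 + e / 100) / p / 2)
  have hXe := X_pos u ((1 - s) / 2)
  have hA1 : (1 : ℝ) ≤ 1 + A := by linarith
  have hM2 : Y * M1 κ u b A p (D8 s u) (η / 2) ≤ κ * (1 + A) * 2201 * (u : ℝ) * Z := by
    have k1 : Y * ns u b A p ≤ (1 + A) * (u : ℝ) * Z := by
      calc Y * ns u b A p ≤ Y * ((1 + A) * X u ((1 + e / 100) / p)) := by gcongr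
        _ = (1 + A) * 1 * (Y * X u ((1 + e / 100) / p)) := by ring
        _ ≤ (1 + A) * (u : ℝ) * Z := by gcongr
    have k2 : Y * (16 * X u (1 - s) * (1 / η)) ≤ 1600 * ((1 + A) * (u : ℝ) * Z) := by
      calc Y * (16 * X u (1 - s) * (1 / η))
          ≤ Y * (16 * X u (1 - s) * (100 * X u (1 / p - e / 4))) := by gcongr
        _ = 1600 * (1 * 1 * (Y * (X u (1 - s) * X u (1 / p - e / 4)))) := by ring
        _ ≤ 1600 * ((1 + A) * (u : ℝ) * Z) := by gcongr
    have k3 : Y * (6 * (u : ℝ) * Real.sqrt (ns u b A p) * X u ((1 - s) / 2) * (1 / η)) ≤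
        600 * ((1 + A) * (u : ℝ) * Z) := by
      calc Y * (6 * (u : ℝ) * Real.sqrt (ns u b A p) * X u ((1 - s) / 2) * (1 / η))
          ≤ Y * (6 * (u : ℝ) * ((1 + A) * X u ((1 + e / 100) / p / 2)) * X u ((1 - s) / 2) *
            (100 * X u (1 / p - e / 4))) := by gcongr
        _ = 600 * ((1 + A) * (u : ℝ) * (Y * (X u ((1 + e / 100) / p / 2) * X u ((1 - s) / 2) *
            X u (1 / p - e / 4)))) := by ring
        _ ≤ 600 * ((1 + A) * (u : ℝ) * Z) := by gcongr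
    calc Y * M1 κ u b A p (D8 s u) (η / 2) ≤ Y * (κ * (ns u b A p + 16 * X u (1 - s) * (1 / η) +
        6 * (u : ℝ) * Real.sqrt (ns u b A p) * X u ((1 - s) / 2) * (1 / η))) := by gcongr
      _ = κ * (Y * ns u b A p + Y * (16 * X u (1 - s) * (1 / η)) +
        Y * (6 * (u : ℝ) * Real.sqrt (ns u b A p) * X u ((1 - s) / 2) * (1 / η))) := by ring
      _ ≤ κ * ((1 + A) * (u : ℝ) * Z + 1600 * ((1 + A) * (u : ℝ) * Z) +
        600 * ((1 + A) * (u : ℝ) * Z)) := by gcongr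
      _ = _ := by ring
  calc 70 / (m₁ * η) * (10 ^ 6 * (u : ℝ) ^ 5 * 2 ^ b) * (4 * M1 κ u b A p (D8 s u) (η / 2))
      = 280 * 10 ^ 6 * (u : ℝ) ^ 5 * ((1 / (m₁ * η) * 2 ^ b) * M1 κ u b A p (D8 s u) (η / 2)) := by
        ring
    _ ≤ 280 * 10 ^ 6 * (u : ℝ) ^ 5 * (Y * M1 κ u b A p (D8 s u) (η / 2)) := by
        have : 1 / (m₁ * η) * 2 ^ b ≤ Y := by
          rw [hY]
          exact mul_le_mul hi h2b (by positivity) (X_pos u _).le
        gcongr
    _ ≤ 280 * 10 ^ 6 * (u : ℝ) ^ 5 * (κ * (1 + A) * 2201 * (u : ℝ) * Z) := by gcongr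
    _ = P₀ * (u : ℝ) ^ 6 * Z := by rw [hP₀]; ring

theorem hONI : Pool.Agent.Helper85.ES.StONI := by
  intro A p s e hA hS
  obtain ⟨a1, a2, a3, a4, a5⟩ := sm_inv hS
  have hS' := hS
  obtain ⟨h1, h2, h3, h4, h5, h6, h7⟩ := hS
  have hp : 0 < p := by linarith
  obtain ⟨u₁, hu₁⟩ := poly_ev 0 (δ := e / 4) (by linarith) (200 * (1 + A))
  obtain ⟨u₂, hu₂⟩ := poly_ev 0 (δ := 1 / p + e / 2) (by positivity) 1000
  refine ⟨max u₁ u₂, ?_⟩
  intro u b m₁ hu0 hu hb hm
  have k1 := hu₁ u ((le_max_left _ _).trans hu0)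
  have k2 := hu₂ u ((le_max_right _ _).trans hu0)
  rw [pow_zero, mul_one] at k1 k2
  have hm' : X u (1 / p + e / 2) ≤ m₁ := hm
  refine ⟨k2.trans hm', ?_⟩
  have hns := ns_mid hu hA hS' hb
  have hXa := X_pos u ((1 + e / 100) / p)
  have hpe : (1 + e / 100) / p ≤ 1 / p + e / 100 := by
    have : (1 + e / 100) / p = 1 / p + e / 100 * (1 / p) := by ring
    rw [this]
    nlinarith
  calc 200 * ns u b A p ≤ 200 * ((1 + A) * X u ((1 + e / 100) / p)) := by gcongr
    _ = (200 * (1 + A)) * X u ((1 + e / 100) / p) := by ring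
    _ ≤ X u (e / 4) * X u ((1 + e / 100) / p) := by gcongr
    _ = X u (e / 4 + (1 + e / 100) / p) := by rw [X_add]
    _ ≤ X u (1 / p + e / 2) := X_mono u (by linarith)
    _ ≤ m₁ := hm'

theorem hONN : Pool.Agent.Helper85.ES.StONN := by
  intro A p s e hA hS
  obtain ⟨a1, a2, a3, a4, a5⟩ := sm_inv hS
  obtain ⟨h1, h2, h3, h4, h5, h6, h7⟩ := hS
  have hp : 0 < p := by linarith
  obtain ⟨u₁, hu₁⟩ := poly_ev 0 (δ := e / 4) (by linarith) (8 * (16 * A))
  obtain ⟨u₂, hu₂⟩ := poly_ev 0 (δ := 1 / p - e / 2) (by linarith) 8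
  obtain ⟨u₃, hu₃⟩ := poly_ev 1 (δ := 1 / 4) (by norm_num) 16
  refine ⟨max (max u₁ u₂) (max u₃ 20), ?_⟩
  intro u q m₁ hu0 hu hq hm
  have k0 : 20 ≤ u := ((le_max_right _ _).trans (le_max_right _ _)).trans hu0
  have k1 := hu₁ u (((le_max_left _ _).trans (le_max_left _ _)).trans hu0)
  have k2 := hu₂ u (((le_max_right _ _).trans (le_max_left _ _)).trans hu0)
  have k3 := hu₃ u (((le_max_left _ _).trans (le_max_right _ _)).trans hu0)
  rw [pow_zero, mul_one] at k1 k2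
  rw [pow_one] at k3
  have hu' : (0 : ℝ) < u := by exact_mod_cast hu
  have hu20 : (20 : ℝ) ≤ u := by exact_mod_cast k0
  have hq3 : 3 / 10 * (u : ℝ) ≤ q := by
    refine le_trans ?_ hq
    have : 3 / 10 ≤ p - 1 + e := by linarith
    exact mul_le_mul_of_nonneg_right this hu'.le
  have hq5 : 5 ≤ q := by
    have : (5 : ℝ) ≤ q := by linarith
    exact_mod_cast this
  have hqq : (2 : ℝ) ^ q = 16 * (2 : ℝ) ^ (q - 4) := by
    have : q = (q - 4) + 4 := by omega
    conv_lhs => rw [this, pow_add]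
    ring
  have hm' : X u (1 / p - e / 2) ≤ m₁ := hm
  refine ⟨hq5, ?_, ?_⟩
  · have h8 : (16 : ℝ) * u ≤ (2 : ℝ) ^ q := by
      refine k3.trans ?_
      unfold X
      rw [← Real.rpow_natCast 2 q]
      apply Real.rpow_le_rpow_of_exponent_le (by norm_num)
      linarith
    rw [hqq] at h8
    have h9 : (u : ℝ) ≤ (2 : ℝ) ^ (q - 4) := by linarith
    exact_mod_cast h9
  · have h10 : (2 : ℝ) ^ u * (A * ((2 ^ (q - 4) : ℕ) : ℝ) ^ (-(1 / p))) ≤
        16 * A * X u (1 / p - 3 / 4 * e) := by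
      have e1 : (((2 ^ (q - 4) : ℕ) : ℝ)) ^ (-(1 / p)) ≤ 16 * X u (-((p - 1 + e) / p)) := by
        push_cast
        have e2 : (2 : ℝ) ^ (q - 4) = (2 : ℝ) ^ ((q : ℝ) - 4) := by
          rw [Real.rpow_sub (by norm_num), Real.rpow_natCast, hqq]
          norm_num
        rw [e2, ← Real.rpow_mul (by norm_num)]
        have e3 : (16 : ℝ) * X u (-((p - 1 + e) / p)) = (2 : ℝ) ^ (4 + -((p - 1 + e) / p) * u) := by
          unfold X
          rw [Real.rpow_add (by norm_num)]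
          norm_num
        rw [e3]
        apply Real.rpow_le_rpow_of_exponent_le (by norm_num)
        have e4 : ((q : ℝ) - 4) * -(1 / p) = 4 * (1 / p) - q * (1 / p) := by ring
        have e5 : (p - 1 + e) / p * (u : ℝ) ≤ q * (1 / p) := by
          have : (p - 1 + e) / p * (u : ℝ) = (p - 1 + e) * u * (1 / p) := by ring
          rw [this]
          exact mul_le_mul_of_nonneg_right hq (by positivity)
        rw [e4]
        linarith
      have e6 : (2 : ℝ) ^ u * X u (-((p - 1 + e) / p)) ≤ X u (1 / p - 3 / 4 * e) := by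
        rw [← X_one, ← X_add]
        apply X_mono
        have e7 : (p - 1 + e) / p = 1 - 1 / p + e * (1 / p) := by field_simp
        rw [e7]
        nlinarith
      calc (2 : ℝ) ^ u * (A * ((2 ^ (q - 4) : ℕ) : ℝ) ^ (-(1 / p)))
          ≤ (2 : ℝ) ^ u * (A * (16 * X u (-((p - 1 + e) / p)))) := by gcongr
        _ = 16 * A * ((2 : ℝ) ^ u * X u (-((p - 1 + e) / p))) := by ring
        _ ≤ 16 * A * X u (1 / p - 3 / 4 * e) := by gcongr
    have h11 : 8 * (16 * A * X u (1 / p - 3 / 4 * e)) ≤ X u (1 / p - e / 2) := by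
      have hXf := X_pos u (1 / p - 3 / 4 * e)
      calc 8 * (16 * A * X u (1 / p - 3 / 4 * e)) = (8 * (16 * A)) * X u (1 / p - 3 / 4 * e) := by ring
        _ ≤ X u (e / 4) * X u (1 / p - 3 / 4 * e) := by gcongr
        _ = X u (1 / p - e / 2) := by rw [← X_add]; congr 1; ring
    linarith

end Pool.Agent.Helper80.ES
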